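import Mathlib
import Pool.Agent.helper71.IG.GAP
import Pool.Agent.helper7.IG.Fin

/-!
# IG: linear gaps, uniformly in the set of shifts and in the automatic sequence

The measure of linear independence `MEAS_stmt` is uniform in the degrees of the coefficients, so
the set `H` of shifts may be any nonempty subset of `[0, x]`, and the automatic sequence any
sequence whose `b`-kernel has at most `κ` elements (both may depend on `x`).
-/

set_option autoImplicit false

open Polynomial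

noncomputable section

namespace Pool.Agent.helper57.IGU

open Pool.Agent.helper7.IG

/-- In characteristic two the sums over two sets add up to the sum over the symmetric
difference. -/
theorem sum_symm {α : Type} [DecidableEq α] (A B : Finset α) (f : α → ZMod 2) :
    ∑ v ∈ symmDiff A B, f v = ∑ v ∈ A, f v + ∑ v ∈ B, f v := by
  have h1 : ∑ v ∈ A, f v = ∑ v ∈ A \ B, f v + ∑ v ∈ A ∩ B, f v := by
    rw [← Finset.sum_union (Finset.disjoint_sdiff_inter A B), Finset.sdiff_union_inter]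
  have h2 : ∑ v ∈ B, f v = ∑ v ∈ B \ A, f v + ∑ v ∈ A ∩ B, f v := by
    rw [Finset.inter_comm, ← Finset.sum_union (Finset.disjoint_sdiff_inter B A),
      Finset.sdiff_union_inter]
  have h3 : ∑ v ∈ symmDiff A B, f v = ∑ v ∈ A \ B, f v + ∑ v ∈ B \ A, f v := by
    rw [symmDiff, Finset.sup_eq_union, Finset.sum_union]
    rw [Finset.disjoint_left]
    intro v hv hv'
    rw [Finset.mem_sdiff] at hv hv'
    exact hv.2 hv'.1
  rw [h1, h2, h3]
  have h4 := CharTwo.add_self_eq_zero (∑ v ∈ A ∩ B, f v)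
  linear_combination (-1 : ZMod 2) * h4

theorem gap_k_le {T : ℕ} (hT : 1 ≤ T) {v : ℤ} {x : ℕ} (hv : -(x : ℤ) ≤ v) : gap_k T v ≤ x := by
  have hT' : (0 : ℤ) < T := by omega
  have h1 : -(x : ℤ) ≤ v / T := by
    rw [Int.le_ediv_iff_mul_le hT']
    have h2 : -(x : ℤ) * T ≤ -(x : ℤ) * 1 := by
      apply mul_le_mul_of_nonpos_left
      · exact_mod_cast hT
      · omega
    linarith
  unfold gap_k
  omega

theorem gap_unif (hmeas : MEAS_stmt) (T : ℕ) (hT : 1 ≤ T) :
    ∃ K : ℕ, ∀ x : ℕ, 1 ≤ x → ∀ H : Finset ℕ, H.Nonempty → (∀ h ∈ H, h ≤ x) →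
      ∀ i i' : ℕ, i < i' → i' < T →
      ∃ n : ℕ, x < n ∧ T * n + i' ≤ K * x ∧ gap_S H (T * n + i) + gap_S H (T * n + i') ≠ 0 := by
  classical
  obtain ⟨K, hK⟩ := hmeas T hT
  refine ⟨T * (2 * K + 1), fun x hx H hH hHx i i' hii hi' => ?_⟩
  set A : Finset ℤ := H.image (fun h : ℕ => (i : ℤ) - h) with hA
  set B : Finset ℤ := H.image (fun h : ℕ => (i' : ℤ) - h) with hB
  set V : Finset ℤ := symmDiff A B with hVdef
  have hmem : ∀ v ∈ V, -(x : ℤ) ≤ v ∧ v < T := by
    intro v hv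
    rw [hVdef, Finset.mem_symmDiff, hA, hB, Finset.mem_image, Finset.mem_image] at hv
    rcases hv with ⟨⟨h, hh, rfl⟩, _⟩ | ⟨⟨h, hh, rfl⟩, _⟩ <;>
    · have := hHx h hh
      constructor <;> omega
  have hV : ∀ v ∈ V, v < T := fun v hv => (hmem v hv).2
  have hc : ∀ n : ℕ, ∑ v ∈ V, gap_F ((T : ℤ) * n + v) =
      gap_S H (T * n + i) + gap_S H (T * n + i') := by
    intro n
    rw [hVdef, sum_symm, hA, hB, Finset.sum_image (fun a _ b _ h => by simpa using h),
      Finset.sum_image (fun a _ b _ h => by simpa using h), gap_S_eq, gap_S_eq]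
    have e1 : ∀ h : ℕ, (T : ℤ) * n + ((i : ℤ) - h) = ((T * n + i : ℕ) : ℤ) - h := by
      intro h; push_cast; ring
    have e2 : ∀ h : ℕ, (T : ℤ) * n + ((i' : ℤ) - h) = ((T * n + i' : ℕ) : ℤ) - h := by
      intro h; push_cast; ring
    simp only [e1, e2]
  -- the largest element of `B` is not in `A`
  obtain ⟨w, hw⟩ : V.Nonempty := by
    obtain ⟨h, hh, hmin⟩ := H.exists_min_image id hH
    refine ⟨(i' : ℤ) - h, ?_⟩
    rw [hVdef, Finset.mem_symmDiff]
    right
    refine ⟨Finset.mem_image_of_mem _ hh, fun hmemA => ?_⟩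
    rw [hA, Finset.mem_image] at hmemA
    obtain ⟨h', hh', he⟩ := hmemA
    have h3 := hmin h' hh'
    simp only [id] at h3
    omega
  have hdeg : ∀ ρ, (gap_A T V ρ).natDegree ≤ x := by
    intro ρ
    refine Polynomial.natDegree_sum_le_of_forall_le _ _ fun v hv => ?_
    rw [Polynomial.natDegree_X_pow]
    exact gap_k_le hT (hmem v (Finset.mem_filter.1 hv).1).1
  set c : ℕ → ZMod 2 := fun n => ∑ v ∈ V, gap_F ((T : ℤ) * n + v) with hcdef
  set Q : Polynomial (ZMod 2) := ∑ n ∈ Finset.range (x + 1), Polynomial.C (c n) * X ^ n with hQ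
  have hQc : ∀ n, Q.coeff n = if n ≤ x then c n else 0 := by
    intro n
    rw [hQ, Polynomial.finsetSum_coeff]
    by_cases hn : n ≤ x
    · rw [if_pos hn, Finset.sum_eq_single n]
      · rw [Polynomial.coeff_C_mul, Polynomial.coeff_X_pow, if_pos rfl, mul_one]
      · intro m _ hm
        rw [Polynomial.coeff_C_mul, Polynomial.coeff_X_pow, if_neg (Ne.symm hm), mul_zero]
      · intro h
        exact absurd (Finset.mem_range.2 (by omega)) h
    · rw [if_neg hn]
      refine Finset.sum_eq_zero fun m hm => ?_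
      rw [Finset.mem_range] at hm
      rw [Polynomial.coeff_C_mul, Polynomial.coeff_X_pow, if_neg (by omega), mul_zero]
  have hQd : Q.natDegree ≤ x := by
    rw [Polynomial.natDegree_le_iff_coeff_eq_zero]
    intro n hn
    rw [hQc, if_neg (by omega)]
  obtain ⟨n, hn1, hn2⟩ := hK x (gap_A T V) Q hdeg hQd
    ⟨gap_ρ T w, (gap_div hT (hV w hw)).2, gap_A_ne hT V hV hw⟩
  rw [map_sub, gap_coeff hT V hV, Polynomial.coeff_coe, hQc] at hn2
  by_cases hnx : n ≤ x
  · rw [if_pos hnx] at hn2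
    exact absurd (sub_self _) hn2
  · rw [if_neg hnx, sub_zero, hc] at hn2
    refine ⟨n, not_le.1 hnx, ?_, hn2⟩
    have h2 : K * (x + 1) ≤ K * (2 * x) := Nat.mul_le_mul_left _ (by omega)
    have h3 : n + 1 ≤ (2 * K + 1) * x := by
      calc n + 1 ≤ K * (2 * x) + x := by omega
        _ = _ := by ring
    calc T * n + i' ≤ T * (n + 1) := by rw [mul_add, mul_one]; omega
      _ ≤ T * ((2 * K + 1) * x) := Nat.mul_le_mul_left _ h3
      _ = _ := by ring

/-- Linear gaps, uniformly in the shifts `H ⊆ [0, x]`, in the class `a` and in the automatic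
sequence `r`. -/
theorem gap_uniform (b : ℕ) (hb : 2 ≤ b) (t : ℕ) (ht : 1 ≤ t) (κ : ℕ) :
    ∃ K : ℕ, ∀ r : ℕ → ZMod 2,
      {f : ℕ → ZMod 2 | ∃ e j : ℕ, j < b ^ e ∧ f = fun n => r (b ^ e * n + j)}.Finite →
      {f : ℕ → ZMod 2 | ∃ e j : ℕ, j < b ^ e ∧ f = fun n => r (b ^ e * n + j)}.ncard ≤ κ →
      ∀ x : ℕ, 1 ≤ x → ∀ H : Finset ℕ, H.Nonempty → (∀ h ∈ H, h ≤ x) → ∀ a : ℕ,
      ∃ n : ℕ, x < n ∧ n ≤ K * x ∧ n ≡ a [MOD t] ∧
        (∑ h ∈ H, (Fintype.card (Nat.Partition (n - h)) : ZMod 2)) ≠ r n := by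
  classical
  obtain ⟨e, he⟩ : ∃ e, t * (κ + 1) < b ^ e := ⟨t * (κ + 1), Nat.lt_pow_self (by omega)⟩
  have hbe : 1 ≤ b ^ e := Nat.one_le_pow _ _ (by omega)
  have hT : 1 ≤ b ^ e * t := Nat.one_le_iff_ne_zero.2 (Nat.mul_ne_zero (by omega) (by omega))
  have hbT : b ^ e ≤ b ^ e * t := Nat.le_mul_of_pos_right _ (by omega)
  obtain ⟨K, hK⟩ := gap_unif meas (b ^ e * t) hT
  refine ⟨K, fun r hr hcard x hx H hH hHx a => ?_⟩
  set j : ℕ → ℕ := fun s => a % t + t * s with hj
  have hat : a % t < t := Nat.mod_lt _ (by omega)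
  have hjlt : ∀ s ≤ κ, j s < b ^ e := by
    intro s hs
    have h1 : t * s ≤ t * κ := Nat.mul_le_mul_left _ hs
    have h2 : t * (κ + 1) = t * κ + t := by ring
    simp only [hj]
    omega
  have hjmod : ∀ s, j s ≡ a [MOD t] := by
    intro s
    have h1 : t * s ≡ 0 [MOD t] := (Nat.modEq_zero_iff_dvd).2 (dvd_mul_right _ _)
    have h2 := (Nat.mod_modEq a t).add h1
    rw [add_zero] at h2
    exact h2
  obtain ⟨s, hs, s', hs', hne, heq⟩ := Finset.exists_ne_map_eq_of_card_lt_of_maps_to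
    (s := Finset.range (κ + 1)) (t := hr.toFinset)
    (by
      rw [Finset.card_range, ← Set.ncard_eq_toFinset_card _ hr]
      omega)
    (f := fun s => fun n => r (b ^ e * n + j s)) (fun s hs => by
      rw [Finset.mem_coe, Finset.mem_range] at hs
      rw [Finset.mem_coe, Set.Finite.mem_toFinset]
      exact ⟨e, j s, hjlt s (by omega), rfl⟩)
  rw [Finset.mem_range] at hs hs'
  obtain ⟨i, i', hi1, hi2, hilt, hi'lt, hii, hr'⟩ : ∃ i i' : ℕ, i ≡ a [MOD t] ∧ i' ≡ a [MOD t] ∧
      i < b ^ e ∧ i' < b ^ e ∧ i < i' ∧ ∀ n, r (b ^ e * n + i) = r (b ^ e * n + i') := by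
    have key : ∀ u u' : ℕ, u < u' → j u < j u' := by
      intro u u' huu
      simp only [hj]
      have := Nat.mul_lt_mul_of_pos_left huu (show 0 < t by omega)
      omega
    rcases lt_or_gt_of_ne hne with h | h
    · exact ⟨j s, j s', hjmod s, hjmod s', hjlt s (by omega), hjlt s' (by omega), key _ _ h,
        fun n => congrFun heq n⟩
    · exact ⟨j s', j s, hjmod s', hjmod s, hjlt s' (by omega), hjlt s (by omega), key _ _ h,
        fun n => (congrFun heq n).symm⟩
  obtain ⟨n, hn1, hn2, hn3⟩ := hK x hx H hH hHx i i' hii (by omega)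
  by_contra hcon
  push Not at hcon
  have hTn : n ≤ b ^ e * t * n := Nat.le_mul_of_pos_left _ (by omega)
  have hmod : ∀ u, u ≡ a [MOD t] → b ^ e * t * n + u ≡ a [MOD t] := by
    intro u hu
    have h1 : b ^ e * t * n ≡ 0 [MOD t] := by
      apply (Nat.modEq_zero_iff_dvd).2
      exact Dvd.dvd.mul_right (dvd_mul_left _ _) _
    simpa using h1.add hu
  have hS : ∀ m : ℕ, x < m →
      gap_S H m = ∑ h ∈ H, (Fintype.card (Nat.Partition (m - h)) : ZMod 2) := by
    intro m hm
    unfold gap_S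
    rw [Finset.filter_true_of_mem]
    intro h hh
    have := hHx h hh
    omega
  have e1 := hcon (b ^ e * t * n + i) (by omega) (by omega) (hmod i hi1)
  have e2 := hcon (b ^ e * t * n + i') (by omega) (by omega) (hmod i' hi2)
  apply hn3
  rw [hS _ (by omega), hS _ (by omega), e1, e2, mul_assoc, hr' (t * n)]
  exact CharTwo.add_self_eq_zero _

end Pool.Agent.helper57.IGU
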